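import Pool.Agent.helper97.BG.SigDefs

/-!
# CH: change of chart by monomial substitutions
-/

namespace Pool.Agent.helper97.BG

open Module

variable {k K : Type*} [Field k] [Field K] [Algebra k K]

namespace CH

/-- nonvanishing of the coordinates -/
theorem V_ne (d : PD k K) (i : Fin 5) : d.V i ≠ 0 := by
  have h0 : d.V 0 ≠ 0 := d.ind.ne_zero 0
  have h1 : d.V 1 ≠ 0 := d.ind.ne_zero 1
  have t0 : d.V 0 ^ 5 ≠ 1 := by
    intro h
    have := (d.ind.transcendental 0)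
    apply this
    refine ⟨Polynomial.X ^ 5 - 1, ?_, ?_⟩
    · intro h'
      have := congrArg (Polynomial.eval 0) h'
      simp at this
    · simp [h]
  have t1 : d.V 1 ^ 5 ≠ 1 := by
    intro h
    have := (d.ind.transcendental 1)
    apply this
    refine ⟨Polynomial.X ^ 5 - 1, ?_, ?_⟩
    · intro h'
      have := congrArg (Polynomial.eval 0) h'
      simp at this
    · simp [h]
  have t2 : d.V 0 ^ 5 * d.V 1 ^ 5 ≠ 1 := by
    intro h
    have h2 := (algebraicIndependent_iff.1 d.ind)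
      (MvPolynomial.X 0 ^ 5 * MvPolynomial.X 1 ^ 5 - 1) (by simp [h])
    have := congrArg (MvPolynomial.eval (fun _ => (0 : k))) h2
    simp at this
  have r0 := d.rel 0
  have r1 := d.rel 1
  have r3 := d.rel 3
  rw [show (0 : Fin 5) + 2 = 2 from rfl, show (0 : Fin 5) + 3 = 3 from rfl] at r0
  rw [show (1 : Fin 5) + 2 = 3 from rfl, show (1 : Fin 5) + 3 = 4 from rfl] at r1
  rw [show (3 : Fin 5) + 2 = 0 from rfl, show (3 : Fin 5) + 3 = 1 from rfl] at r3
  have h2 : d.V 2 ≠ 0 := by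
    intro h; rw [h] at r0; apply t0; simpa using r0
  have h3 : d.V 3 ≠ 0 := by
    intro h; rw [h] at r3; apply t2; simpa using r3
  have h4 : d.V 4 ≠ 0 := by
    intro h; rw [h] at r1; apply t1; simpa using r1
  fin_cases i
  · exact h0
  · exact h1
  · exact h2
  · exact h3
  · exact h4

/-- the exponents after the change of chart -/
def star (L : ℕ) (i : Fin 5) (n : Fin 5 → ℕ) (j : Fin 5) : ℕ :=
  ![L + n 2 - (n 1 + n 3), L + n 4 - (n 0 + n 3), n 4, n 3, n 2] (j - i)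

/-- the inverse -/
def inv (L : ℕ) (i : Fin 5) (m : Fin 5 → ℕ) : Fin 5 → ℕ :=
  ![L + m (i + 2) - (m (i + 1) + m (i + 3)), L + m (i + 4) - (m (i + 3) + m i), m (i + 4),
    m (i + 3), m (i + 2)]

theorem lev5 {L : ℕ} {n : Fin 5 → ℕ} : Lev L n ↔ n 1 + n 3 ≤ L + n 2 ∧ n 2 + n 4 ≤ L + n 3 ∧
    n 3 + n 0 ≤ L + n 4 ∧ n 4 + n 1 ≤ L + n 0 ∧ n 0 + n 2 ≤ L + n 1 := by
  constructor
  · intro h
    exact ⟨h 0, h 1, h 2, h 3, h 4⟩
  · rintro ⟨h0, h1, h2, h3, h4⟩ l
    fin_cases l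
    · exact h0
    · exact h1
    · exact h2
    · exact h3
    · exact h4

/-- the level conditions with a rotated index -/
theorem lev5' {L : ℕ} {m : Fin 5 → ℕ} (i : Fin 5) : Lev L m ↔
    m (i + 1) + m (i + 3) ≤ L + m (i + 2) ∧ m (i + 2) + m (i + 4) ≤ L + m (i + 3) ∧
    m (i + 3) + m i ≤ L + m (i + 4) ∧ m (i + 4) + m (i + 1) ≤ L + m i ∧
    m i + m (i + 2) ≤ L + m (i + 1) := by
  rw [lev5]
  fin_cases i
  · exact Iff.rfl
  · constructor
    · rintro ⟨h0, h1, h2, h3, h4⟩; exact ⟨h1, h2, h3, h4, h0⟩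
    · rintro ⟨h1, h2, h3, h4, h0⟩; exact ⟨h0, h1, h2, h3, h4⟩
  · constructor
    · rintro ⟨h0, h1, h2, h3, h4⟩; exact ⟨h2, h3, h4, h0, h1⟩
    · rintro ⟨h2, h3, h4, h0, h1⟩; exact ⟨h0, h1, h2, h3, h4⟩
  · constructor
    · rintro ⟨h0, h1, h2, h3, h4⟩; exact ⟨h3, h4, h0, h1, h2⟩
    · rintro ⟨h3, h4, h0, h1, h2⟩; exact ⟨h0, h1, h2, h3, h4⟩
  · constructor
    · rintro ⟨h0, h1, h2, h3, h4⟩; exact ⟨h4, h0, h1, h2, h3⟩
    · rintro ⟨h4, h0, h1, h2, h3⟩; exact ⟨h0, h1, h2, h3, h4⟩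

theorem star_at (L : ℕ) (i : Fin 5) (n : Fin 5 → ℕ) :
    star L i n i = L + n 2 - (n 1 + n 3) ∧ star L i n (i + 1) = L + n 4 - (n 0 + n 3) ∧
    star L i n (i + 2) = n 4 ∧ star L i n (i + 3) = n 3 ∧ star L i n (i + 4) = n 2 := by
  unfold star
  rw [sub_self, add_sub_cancel_left, add_sub_cancel_left, add_sub_cancel_left,
    add_sub_cancel_left]
  exact ⟨rfl, rfl, rfl, rfl, rfl⟩

theorem star_lev {L : ℕ} (i : Fin 5) {n : Fin 5 → ℕ} (h : Lev L n) : Lev L (star L i n) := by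
  obtain ⟨e0, e1, e2, e3, e4⟩ := star_at L i n
  rw [lev5' i, e0, e1, e2, e3, e4]
  rw [lev5] at h
  omega

theorem inv_at (L : ℕ) (i : Fin 5) (m : Fin 5 → ℕ) :
    inv L i m 0 = L + m (i + 2) - (m (i + 1) + m (i + 3)) ∧
    inv L i m 1 = L + m (i + 4) - (m (i + 3) + m i) ∧
    inv L i m 2 = m (i + 4) ∧ inv L i m 3 = m (i + 3) ∧ inv L i m 4 = m (i + 2) :=
  ⟨rfl, rfl, rfl, rfl, rfl⟩

theorem inv_lev {L : ℕ} (i : Fin 5) {m : Fin 5 → ℕ} (h : Lev L m) : Lev L (inv L i m) := by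
  obtain ⟨a0, a1, a2, a3, a4⟩ := inv_at L i m
  rw [lev5' i] at h
  rw [lev5, a0, a1, a2, a3, a4]
  omega

theorem star_inv {L : ℕ} (i : Fin 5) {m : Fin 5 → ℕ} (h : Lev L m) :
    star L i (inv L i m) = m := by
  obtain ⟨e0, e1, e2, e3, e4⟩ := star_at L i (inv L i m)
  obtain ⟨a0, a1, a2, a3, a4⟩ := inv_at L i m
  rw [lev5' i] at h
  simp only [a0, a1, a2, a3, a4] at e0 e1 e2 e3 e4
  funext j
  obtain ⟨l, rfl⟩ : ∃ l, j = i + l := ⟨j - i, by abel⟩
  fin_cases l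
  · simp only [Fin.zero_eta, add_zero]
    rw [e0]; omega
  · change star L i _ (i + 1) = m (i + 1)
    rw [e1]; omega
  · change star L i _ (i + 2) = m (i + 2)
    exact e2
  · change star L i _ (i + 3) = m (i + 3)
    exact e3
  · change star L i _ (i + 4) = m (i + 4)
    exact e4

theorem mon_rot (d : PD k K) (i : Fin 5) (n : Fin 5 → ℕ) : d.mon n =
    d.V i ^ n i * d.V (i + 1) ^ n (i + 1) * d.V (i + 2) ^ n (i + 2) * d.V (i + 3) ^ n (i + 3) *
      d.V (i + 4) ^ n (i + 4) := by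
  unfold PD.mon
  rw [← Equiv.prod_comp (Equiv.addLeft i) (fun j => d.V j ^ n j), Fin.prod_univ_five]
  simp only [Equiv.coe_addLeft, add_zero]

theorem mon_star {d d' : PD k K} {i : Fin 5} (h : IsSig d d' i) {L : ℕ} {n : Fin 5 → ℕ}
    (hn : Lev L n) : d'.mon n * d.w i ^ L = d.mon (star L i n) := by
  obtain ⟨e0, e1, e2, e3, e4⟩ := star_at L i n
  rw [lev5] at hn
  have hv0 := V_ne d i
  have hv1 := V_ne d (i + 1)
  rw [mon_rot d i, e0, e1, e2, e3, e4]
  obtain ⟨a, ha⟩ : ∃ a, a = L + n 2 - (n 1 + n 3) := ⟨_, rfl⟩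
  obtain ⟨b, hb⟩ : ∃ b, b = L + n 4 - (n 0 + n 3) := ⟨_, rfl⟩
  rw [← ha, ← hb]
  have ha' : a + n 1 + n 3 = L + n 2 := by omega
  have hb' : b + n 0 + n 3 = L + n 4 := by omega
  unfold PD.mon PD.w
  rw [Fin.prod_univ_five, h.V0, h.V1, h.V2, h.V3, h.V4]
  have p0 : d.V i ^ a * d.V i ^ n 1 * d.V i ^ n 3 = d.V i ^ L * d.V i ^ n 2 := by
    rw [← pow_add, ← pow_add, ha', pow_add]
  have p1 : d.V (i + 1) ^ b * d.V (i + 1) ^ n 0 * d.V (i + 1) ^ n 3
      = d.V (i + 1) ^ L * d.V (i + 1) ^ n 4 := by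
    rw [← pow_add, ← pow_add, hb', pow_add]
  generalize hX : d.V i = X at *
  generalize hY : d.V (i + 1) = Y at *
  generalize d.V (i + 2) = Z
  generalize d.V (i + 3) = U
  generalize d.V (i + 4) = T
  have i0 : (Y⁻¹) ^ n 0 * Y ^ n 0 = 1 := by rw [← mul_pow, inv_mul_cancel₀ hv1, one_pow]
  have i1 : (X⁻¹) ^ n 1 * X ^ n 1 = 1 := by rw [← mul_pow, inv_mul_cancel₀ hv0, one_pow]
  have i3 : (U / (X * Y)) ^ n 3 * (X ^ n 3 * Y ^ n 3) = U ^ n 3 := by
    rw [← mul_pow, ← mul_pow, div_mul_cancel₀ _ (mul_ne_zero hv0 hv1)]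
  have hne : Y ^ n 0 * Y ^ n 3 * X ^ n 1 * X ^ n 3 ≠ 0 :=
    mul_ne_zero (mul_ne_zero (mul_ne_zero (pow_ne_zero _ hv1) (pow_ne_zero _ hv1))
      (pow_ne_zero _ hv0)) (pow_ne_zero _ hv0)
  apply mul_right_cancel₀ hne
  calc (Y⁻¹ ^ n 0 * X⁻¹ ^ n 1 * (X * T) ^ n 2 * (U / (X * Y)) ^ n 3 * (Y * Z) ^ n 4 * (X * Y) ^ L)
        * (Y ^ n 0 * Y ^ n 3 * X ^ n 1 * X ^ n 3)
      = (Y⁻¹ ^ n 0 * Y ^ n 0) * (X⁻¹ ^ n 1 * X ^ n 1) * ((U / (X * Y)) ^ n 3 *
          (X ^ n 3 * Y ^ n 3)) * (X * T) ^ n 2 * (Y * Z) ^ n 4 * (X * Y) ^ L := by ring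
    _ = U ^ n 3 * (X ^ L * X ^ n 2) * (Y ^ L * Y ^ n 4) * T ^ n 2 * Z ^ n 4 := by
        rw [i0, i1, i3]; ring
    _ = U ^ n 3 * (X ^ a * X ^ n 1 * X ^ n 3) * (Y ^ b * Y ^ n 0 * Y ^ n 3) * T ^ n 2 * Z ^ n 4 := by
        rw [p0, p1]
    _ = X ^ a * Y ^ b * Z ^ n 4 * U ^ n 3 * T ^ n 2 * (Y ^ n 0 * Y ^ n 3 * X ^ n 1 * X ^ n 3) := by
        ring

theorem w_ne (d : PD k K) (i : Fin 5) : d.w i ≠ 0 := mul_ne_zero (V_ne d i) (V_ne d (i + 1))

theorem mon_inv {d d' : PD k K} {i : Fin 5} (h : IsSig d d' i) {L : ℕ} {m : Fin 5 → ℕ}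
    (hm : Lev L m) : d.mon m = d'.mon (inv L i m) * d.w i ^ L := by
  rw [mon_star h (inv_lev i hm), star_inv i hm]

theorem y_eq {d d' : PD k K} {i : Fin 5} (h : IsSig d d' i) : d.y = d'.y * d.w i := by
  rw [h.y]
  exact (div_mul_cancel₀ _ (w_ne d i)).symm

theorem lev_single (j : Fin 5) : Lev 1 (Pi.single j 1) := by
  revert j
  unfold Lev
  decide

theorem lev_mono {L L' : ℕ} (h : L ≤ L') {n : Fin 5 → ℕ} (hn : Lev L n) : Lev L' n :=
  fun l => (hn l).trans (Nat.add_le_add_right h _)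

theorem mon_single (d : PD k K) (j : Fin 5) : d.mon (Pi.single j 1) = d.V j := by
  unfold PD.mon
  rw [Finset.prod_eq_single j]
  · simp
  · intro b _ hb
    simp [hb]
  · simp

theorem mon_add (d : PD k K) (n m : Fin 5 → ℕ) : d.mon (n + m) = d.mon n * d.mon m := by
  unfold PD.mon
  rw [← Finset.prod_mul_distrib]
  exact Finset.prod_congr rfl fun i _ => by rw [Pi.add_apply, pow_add]

theorem mon_zero (d : PD k K) : d.mon 0 = 1 := by
  unfold PD.mon
  simp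

theorem y_mem_W (d : PD k K) : d.y ∈ d.W := Submodule.subset_span (Set.mem_insert _ _)

theorem mon_mem_W (d : PD k K) {n : Fin 5 → ℕ} (hn : Lev 1 n) : d.mon n ∈ d.W :=
  Submodule.subset_span (Set.mem_insert_of_mem _ ⟨n, hn, rfl⟩)

theorem mon_mem_O (d : PD k K) (n : Fin 5 → ℕ) : d.mon n ∈ d.O :=
  Subalgebra.prod_mem _ fun j _ => Subalgebra.pow_mem _
    (Algebra.subset_adjoin (Set.mem_insert_of_mem _ (Set.mem_range_self j))) _

theorem y_mem_O (d : PD k K) : d.y ∈ d.O := Algebra.subset_adjoin (Set.mem_insert _ _)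

/-! ### the spaces `Mm` -/

theorem gen_mem (d : PD k K) {m b : ℕ} {n : Fin 5 → ℕ} (hb : b ≤ m)
    (hn : Lev (2 * (m - b)) n) : d.mon n * d.y ^ (2 * b) ∈ d.Mm m :=
  Submodule.subset_span ⟨n, b, hb, hn, rfl⟩

theorem Mm_mono (d : PD k K) {m m' : ℕ} (h : m ≤ m') : d.Mm m ≤ d.Mm m' := by
  unfold PD.Mm
  rw [Submodule.span_le]
  rintro x ⟨n, b, hb, hn, rfl⟩
  exact gen_mem d (hb.trans h) (lev_mono (by omega) hn)

theorem Mm_mul (d : PD k K) {m m' : ℕ} {x y : K} (hx : x ∈ d.Mm m) (hy : y ∈ d.Mm m') :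
    x * y ∈ d.Mm (m + m') := by
  have h : d.Mm m * d.Mm m' ≤ d.Mm (m + m') := by
    unfold PD.Mm
    rw [Submodule.span_mul_span, Submodule.span_le]
    rintro z ⟨x, ⟨n, b, hb, hn, rfl⟩, y, ⟨n', b', hb', hn', rfl⟩, rfl⟩
    have e : d.mon n * d.y ^ (2 * b) * (d.mon n' * d.y ^ (2 * b'))
        = d.mon (n + n') * d.y ^ (2 * (b + b')) := by
      rw [mon_add, mul_add, pow_add]; ring
    simp only [SetLike.mem_coe]
    change d.mon n * d.y ^ (2 * b) * (d.mon n' * d.y ^ (2 * b')) ∈ _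
    rw [e]
    refine gen_mem d (by omega) fun l => ?_
    have h1 := hn l
    have h2 := hn' l
    simp only [Pi.add_apply]
    omega
  exact h (Submodule.mul_mem_mul hx hy)

theorem one_mem_Mm (d : PD k K) : (1 : K) ∈ d.Mm 0 := by
  have := gen_mem d (m := 0) (b := 0) (n := 0) le_rfl (fun l => by simp)
  simpa [mon_zero] using this

theorem mem_Eo_iff (d : PD k K) (x : K) : x ∈ d.Eo ↔ ∃ m, x ∈ d.Mm m := by
  constructor
  · intro hx
    unfold PD.Eo at hx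
    induction hx using Algebra.adjoin_induction with
    | mem x hx =>
      refine ⟨1, ?_⟩
      rcases hx with rfl | ⟨j, rfl⟩
      · have := gen_mem d (m := 1) (b := 1) (n := 0) le_rfl (fun l => by simp)
        simpa [mon_zero] using this
      · have := gen_mem d (m := 1) (b := 0) (n := Pi.single j 1) (by omega)
          (lev_mono (by omega) (lev_single j))
        rw [mon_single] at this
        simpa using this
    | algebraMap c =>
      refine ⟨0, ?_⟩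
      rw [Algebra.algebraMap_eq_smul_one]
      exact Submodule.smul_mem _ _ (one_mem_Mm d)
    | add x y _ _ hx hy =>
      obtain ⟨a, ha⟩ := hx
      obtain ⟨b, hb⟩ := hy
      exact ⟨max a b, Submodule.add_mem _ (Mm_mono d (le_max_left _ _) ha)
        (Mm_mono d (le_max_right _ _) hb)⟩
    | mul x y _ _ hx hy =>
      obtain ⟨a, ha⟩ := hx
      obtain ⟨b, hb⟩ := hy
      exact ⟨a + b, Mm_mul d ha hb⟩
  · rintro ⟨m, hm⟩
    have h : d.Mm m ≤ Subalgebra.toSubmodule d.Eo := by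
      unfold PD.Mm
      rw [Submodule.span_le]
      rintro x ⟨n, b, hb, hn, rfl⟩
      change d.mon n * d.y ^ (2 * b) ∈ d.Eo
      refine Subalgebra.mul_mem _ (Subalgebra.prod_mem _ fun j _ => Subalgebra.pow_mem _
        (Algebra.subset_adjoin (Set.mem_insert_of_mem _ (Set.mem_range_self j))) _) ?_
      rw [pow_mul]
      exact Subalgebra.pow_mem _ (Algebra.subset_adjoin (Set.mem_insert _ _)) _
    exact h hm

theorem Mm_iff {d d' : PD k K} {i : Fin 5} (h : IsSig d d' i) (m : ℕ) (x : K) :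
    (d.w i ^ m) ^ 2 * x ∈ d.Mm m ↔ x ∈ d'.Mm m := by
  have hw : (d.w i ^ m) ^ 2 ≠ 0 := pow_ne_zero _ (pow_ne_zero _ (w_ne d i))
  constructor
  · intro hx
    have key : ∀ f ∈ d.Mm m, ((d.w i ^ m) ^ 2)⁻¹ * f ∈ d'.Mm m := by
      intro f hf
      unfold PD.Mm at hf
      induction hf using Submodule.span_induction with
      | mem f hf =>
        obtain ⟨n, b, hb, hn, rfl⟩ := hf
        rw [mon_inv h hn, y_eq h]
        have e : ((d.w i ^ m) ^ 2)⁻¹ * (d'.mon (inv (2 * (m - b)) i n) * d.w i ^ (2 * (m - b)) *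
            (d'.y * d.w i) ^ (2 * b)) = d'.mon (inv (2 * (m - b)) i n) * d'.y ^ (2 * b) := by
          have e1 : (d.w i ^ m) ^ 2 = d.w i ^ (2 * (m - b)) * d.w i ^ (2 * b) := by
            rw [← pow_mul, ← pow_add]
            congr 1
            omega
          rw [inv_mul_eq_iff_eq_mul₀ hw, e1, mul_pow]
          ring
        rw [e]
        exact gen_mem d' hb (inv_lev i hn)
      | zero => rw [mul_zero]; exact Submodule.zero_mem _
      | add x y _ _ hx hy => rw [mul_add]; exact Submodule.add_mem _ hx hy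
      | smul c x _ hx => rw [mul_smul_comm]; exact Submodule.smul_mem _ _ hx
    have := key _ hx
    rwa [← mul_assoc, inv_mul_cancel₀ hw, one_mul] at this
  · intro hx
    unfold PD.Mm at hx
    induction hx using Submodule.span_induction with
    | mem f hf =>
      obtain ⟨n, b, hb, hn, rfl⟩ := hf
      have e : (d.w i ^ m) ^ 2 * (d'.mon n * d'.y ^ (2 * b))
          = d.mon (star (2 * (m - b)) i n) * d.y ^ (2 * b) := by
        have e1 : (d.w i ^ m) ^ 2 = d.w i ^ (2 * (m - b)) * d.w i ^ (2 * b) := by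
          rw [← pow_mul, ← pow_add]
          congr 1
          omega
        rw [e1, ← mon_star h hn, y_eq h, mul_pow]
        ring
      rw [e]
      exact gen_mem d hb (star_lev i hn)
    | zero => rw [mul_zero]; exact Submodule.zero_mem _
    | add x y _ _ hx hy => rw [mul_add]; exact Submodule.add_mem _ hx hy
    | smul c x _ hx => rw [mul_smul_comm]; exact Submodule.smul_mem _ _ hx

end CH

theorem PD.chart_one (d : PD k K) : chart d.W 1 = d.O := by
  apply le_antisymm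
  · apply Algebra.adjoin_le
    rintro x ⟨f, hf, rfl⟩
    rw [div_one]
    have h : d.W ≤ Subalgebra.toSubmodule d.O := by
      unfold PD.W
      rw [Submodule.span_le]
      rintro x (rfl | ⟨n, -, rfl⟩)
      · exact CH.y_mem_O d
      · exact CH.mon_mem_O d n
    exact h hf
  · apply Algebra.adjoin_le
    rintro x (rfl | ⟨j, rfl⟩)
    · exact Algebra.subset_adjoin ⟨_, CH.y_mem_W d, by rw [div_one]⟩
    · exact Algebra.subset_adjoin ⟨_, CH.mon_mem_W d (CH.lev_single j),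
        by rw [div_one, CH.mon_single]⟩

theorem IsSig.chart_eq {d d' : PD k K} {i : Fin 5} (h : IsSig d d' i) :
    chart d.W (d.w i) = d'.O := by
  have hw := CH.w_ne d i
  apply le_antisymm
  · apply Algebra.adjoin_le
    rintro x ⟨f, hf, rfl⟩
    simp only [SetLike.mem_coe]
    unfold PD.W at hf
    induction hf using Submodule.span_induction with
    | mem f hf =>
      rcases hf with rfl | ⟨n, hn, rfl⟩
      · rw [CH.y_eq h, mul_div_cancel_right₀ _ hw]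
        exact CH.y_mem_O d'
      · rw [CH.mon_inv h hn, pow_one, mul_div_cancel_right₀ _ hw]
        exact CH.mon_mem_O d' _
    | zero => rw [zero_div]; exact Subalgebra.zero_mem _
    | add x y _ _ hx hy => rw [add_div]; exact Subalgebra.add_mem _ hx hy
    | smul c x _ hx => rw [smul_div_assoc]; exact Subalgebra.smul_mem _ hx c
  · apply Algebra.adjoin_le
    rintro x (rfl | ⟨j, rfl⟩)
    · exact Algebra.subset_adjoin ⟨_, CH.y_mem_W d, h.y⟩
    · refine Algebra.subset_adjoin ⟨_, CH.mon_mem_W d (CH.star_lev i (CH.lev_single j)), ?_⟩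
      rw [← CH.mon_star h (CH.lev_single j), pow_one, mul_div_cancel_right₀ _ hw, CH.mon_single]

theorem PD.sec_one [CharP K 2] (d : PD k K) (v : Fr K) :
    (∃ m : ℕ, (1 : K) ^ m • v ∈ d.M m) ↔ Fr.mk.symm v ∈ d.Eo := by
  rw [CH.mem_Eo_iff]
  constructor
  · rintro ⟨m, hm⟩
    rw [one_pow, one_smul] at hm
    exact ⟨m, hm⟩
  · rintro ⟨m, hm⟩
    refine ⟨m, ?_⟩
    rw [one_pow, one_smul]
    exact hm

theorem IsSig.sec [CharP K 2] {d d' : PD k K} {i : Fin 5} (h : IsSig d d' i) (v : Fr K) :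
    (∃ m : ℕ, d.w i ^ m • v ∈ d.M m) ↔ Fr.mk.symm v ∈ d'.Eo := by
  rw [CH.mem_Eo_iff]
  refine exists_congr fun m => ?_
  rw [← CH.Mm_iff h]
  exact Iff.rfl

end Pool.Agent.helper97.BG
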